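import Mathlib

open Set Filter Topology

namespace Pool.Agent.Results.MP_3ea43b_an.NoBoth

/-- spectrum of the diagonal of the UHF algebra `⨂ M_{k n}` -/
abbrev X (k : ℕ → ℕ) := ∀ n, Fin (k n)

/-- the compact open piece of the AF relation coming from the `n`-th matrix algebra -/
def Rn (k : ℕ → ℕ) (n : ℕ) : Set (X k × X k) := {p | ∀ m, n ≤ m → p.1 m = p.2 m}

/-- the AF relation (tail equivalence) -/
def R (k : ℕ → ℕ) : Set (X k × X k) := ⋃ n, Rn k n

/-- a continuous (for the inductive limit topology) real cocycle on `R` -/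
structure Cocycle (k : ℕ → ℕ) (c : X k × X k → ℝ) : Prop where
  cont : ∀ n, ContinuousOn c (Rn k n)
  add : ∀ x y z, (x, y) ∈ R k → (y, z) ∈ R k → c (x, y) + c (y, z) = c (x, z)

variable {k : ℕ → ℕ}

lemma trans {x y z : X k} (h1 : (x, y) ∈ R k) (h2 : (y, z) ∈ R k) : (x, z) ∈ R k := by
  obtain ⟨a, ha⟩ := mem_iUnion.1 h1
  obtain ⟨b, hb⟩ := mem_iUnion.1 h2
  exact mem_iUnion.2 ⟨max a b, fun m hm =>
    (ha m (le_of_max_le_left hm)).trans (hb m (le_of_max_le_right hm))⟩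

lemma symm {x y : X k} (h1 : (x, y) ∈ R k) : (y, x) ∈ R k := by
  obtain ⟨a, ha⟩ := mem_iUnion.1 h1
  exact mem_iUnion.2 ⟨a, fun m hm => (ha m hm).symm⟩

def glue (N : ℕ) (u x : X k) : X k := fun m => if m < N then u m else x m

lemma glue_mem (N : ℕ) (u x : X k) : (x, glue N u x) ∈ Rn k N ∧ (glue N u x, x) ∈ Rn k N :=
  ⟨fun m hm => by simp [glue, not_lt.2 hm], fun m hm => by simp [glue, not_lt.2 hm]⟩

lemma compact (n : ℕ) : IsCompact (Rn k n) := by
  refine IsClosed.isCompact ?_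
  simp only [Rn, ofPred_forall]
  exact isClosed_iInter fun m => isClosed_iInter fun _ => isClosed_eq (by fun_prop) (by fun_prop)

lemma near {c : X k × X k → ℝ} (hc : Cocycle k c) {u v : X k} (h : (u, v) ∈ R k) {a : ℝ}
    (ha : a < c (u, v)) : ∃ N, ∀ x, a < c (glue N u x, glue N v x) := by
  obtain ⟨n, hn⟩ := mem_iUnion.1 h
  by_contra hh
  push Not at hh
  choose x hx using hh
  have t : ∀ w : X k, Tendsto (fun N => glue N w (x N)) atTop (𝓝 w) := fun w =>
    tendsto_pi_nhds.2 fun m => tendsto_const_nhds.congr'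
      ((eventually_gt_atTop m).mono fun N hN => by simp [glue, hN])
  have t2 : Tendsto (fun N => (glue N u (x N), glue N v (x N))) atTop (𝓝[Rn k n] (u, v)) :=
    tendsto_nhdsWithin_iff.2 ⟨(t u).prodMk_nhds (t v), Eventually.of_forall fun N m hm => by
      have := hn m hm
      simp only [glue] at this ⊢
      split_ifs
      · exact this
      · rfl⟩
  exact absurd (le_of_tendsto' ((hc.cont n _ hn).tendsto.comp t2) hx) (not_le.2 ha)

theorem result (k : ℕ → ℕ) (P : Set (X k × X k)) (c c' : X k × X k → ℝ) (hc : Cocycle k c)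
    (hc' : Cocycle k c') (hP : P = {p ∈ R k | 0 ≤ c p}) (hP' : P = {p ∈ R k | 0 ≤ c' p})
    (hb : ∃ M, ∀ p ∈ R k, |c' p| ≤ M) : ∃ M, ∀ p ∈ R k, |c p| ≤ M := by
  have hneg : ∀ {d}, Cocycle k d → ∀ {x y}, (x, y) ∈ R k → d (y, x) = -d (x, y) := by
    intro d hd x y h
    have h1 := hd.add x y x h (symm h)
    have h2 := hd.add x x x (trans h (symm h)) (trans h (symm h))
    linarith
  have hs : ∀ p ∈ R k, 0 ≤ c' p → 0 ≤ c p := fun p hp h => by
    have : p ∈ P := hP' ▸ ⟨hp, h⟩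
    rw [hP] at this; exact this.2
  suffices h : ∃ M, ∀ p ∈ R k, c p ≤ M by
    obtain ⟨M, hM⟩ := h
    refine ⟨M, fun p hp => abs_le.2 ⟨?_, hM p hp⟩⟩
    have := hM _ (symm (x := p.1) (y := p.2) hp)
    rw [hneg hc (x := p.1) (y := p.2) hp] at this
    linarith
  obtain ⟨M, hM⟩ := hb
  have bdd : BddAbove (c' '' R k) := ⟨M, by rintro _ ⟨p, hp, rfl⟩; exact (abs_le.1 (hM p hp)).2⟩
  set S := sSup (c' '' R k) with hS
  have hle : ∀ p ∈ R k, c' p ≤ S := fun p hp => le_csSup bdd (mem_image_of_mem _ hp)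
  rcases le_or_gt S 0 with h0 | h0
  · refine ⟨0, fun p hp => ?_⟩
    have h1 := hs _ (symm (x := p.1) (y := p.2) hp) (by
      rw [hneg hc' (x := p.1) (y := p.2) hp]; linarith [hle p hp])
    rw [hneg hc (x := p.1) (y := p.2) hp] at h1
    linarith
  have ne : (c' '' R k).Nonempty := by
    by_contra h
    rw [not_nonempty_iff_eq_empty.1 h, Real.sSup_empty] at hS
    exact h0.ne' hS
  obtain ⟨_, ⟨⟨u, v⟩, huv, rfl⟩, h1⟩ := exists_lt_of_lt_csSup ne (show S / 2 < S by linarith)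
  obtain ⟨N, hN⟩ := near hc' huv h1
  obtain ⟨K, hK⟩ := (compact (k := k) N).bddAbove_image (hc.cont N)
  refine ⟨K + K, fun ⟨x, y⟩ hp => ?_⟩
  have m : ∀ {p}, p ∈ Rn k N → p ∈ R k := fun h => mem_iUnion.2 ⟨N, h⟩
  have r1 := m (glue_mem N v x).1
  have r2 := m (glue_mem N u y).2
  have r3 := trans (symm r1) (trans hp (symm r2))
  have r4 := trans (m (glue_mem N u x).2) r1
  have r5 := trans r2 (m (glue_mem N v y).1)
  have a1 := hc'.add _ _ _ r4 r3
  have a2 := hc'.add _ _ _ (trans r4 r3) r5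
  have a3 := hle _ (trans (trans r4 r3) r5)
  have a4 := hs _ (symm r3) (by rw [hneg hc' r3]; linarith [hN x, hN y])
  rw [hneg hc r3] at a4
  have b1 := hc.add _ _ _ r1 r3
  have b2 := hc.add _ _ _ (trans r1 r3) r2
  have b3 := hK (mem_image_of_mem _ (glue_mem N v x).1)
  have b4 := hK (mem_image_of_mem _ (glue_mem N u y).2)
  linarith

end Pool.Agent.Results.MP_3ea43b_an.NoBoth
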